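import Mathlib
import Pool.Agent.H22.Glue
import Pool.Agent.H22.Perc3

set_option autoImplicit false
open MeasureTheory ProbabilityTheory Set Filter
open scoped Classical
open Pool.Agent.H22.Glue

namespace Pool.Agent.Results.MP_ba6fcf_pr.Exists
noncomputable section

/-- Coding radius at `y`: least `r` such that `φ y' 0 = φ y 0` for every `y'` agreeing with `y`
on `[-r, r]`. -/
def radius {T S : Type} (φ : (ℤ → T) → ℤ → S) (y : ℤ → T) : ℕ∞ :=
  ⨅ (r : ℕ) (_ : ∀ y' : ℤ → T, (∀ i : ℤ, |i| ≤ r → y' i = y i) → φ y' 0 = φ y 0), (r : ℕ∞)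

abbrev J := ℕ × ℤ × ℕ
abbrev PP : Measure (J → ZMod 2) := Measure.infinitePi fun _ => un 2

def gad (n : ℕ) (t : ℤ) (ω : J → ZMod 2) : ZMod 2 :=
  ω (n, t, 0) * ω (n, t, n + 2) + ∑ u ∈ Finset.Ico 2 (n + 2), ω (n, t, u)

def X (ω : J → ZMod 2) (i : ℤ) (c : ℕ × ℕ) : ZMod 2 :=
  if c.2 = 1 then gad c.1 (i - 1) ω else ω (c.1, i - c.2, c.2)

lemma X_meas : Measurable X := by
  refine measurable_pi_lambda _ fun i => measurable_pi_lambda _ fun c => ?_
  unfold X gad
  split_ifs <;> fun_prop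

lemma chain {A B : Set ℤ} (h : ∀ a ∈ A, ∀ b ∈ B, 1 < |a - b|) {n : ℕ} {t : ℤ}
    (hp : ∀ s ∈ Ico 1 (n + 2), t + (s : ℕ) ∈ A ∪ B) {s : ℕ} (hs : s ≤ n + 2) (ha : t + s ∈ A) :
    t + 1 ∈ A := by
  induction s using Nat.strong_induction_on with
  | _ s ih =>
    rcases s with _ | _ | s
    · exact (hp 1 (by simp)).resolve_right fun hb => by simpa using h _ ha _ hb
    · simpa using ha
    · exact ih (s + 1) (by omega) (by omega) ((hp (s + 1) ⟨by omega, by omega⟩).resolve_right
        fun hb => by simpa using h _ ha _ hb)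

lemma dep (A B : Set ℤ) (h : ∀ a ∈ A, ∀ b ∈ B, 1 < |a - b|) :
    IndepFun (fun ω (a : A) => X ω a) (fun ω (b : B) => X ω b) PP := by
  let p : ℕ → ℤ → Prop := fun n t => ∃ s ∈ Ico 1 (n + 2), t + (s : ℕ) ∉ A ∪ B
  have hs : ∀ n t, ∃ s : ℕ, p n t → s ∈ Ico 1 (n + 2) ∧ t + s ∉ A ∪ B := fun n t => by
    by_cases h : p n t
    · exact h.imp fun _ h _ => h
    · exact ⟨0, fun h' => (h h').elim⟩
  choose s hs using hs
  let D : Set J := {j | p j.1 j.2.1 ∧ j.2.2 = s j.1 j.2.1}
  let H : (J → ZMod 2) → J → ZMod 2 := fun ω j => if j ∈ D then ω (j.1, j.2.1, 0) *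
    ω (j.1, j.2.1, j.1 + 2) + ∑ u ∈ (Finset.Ico 2 (j.1 + 2)).erase j.2.2, ω (j.1, j.2.1, u) else 0
  have hΦ := shear (un 2) D H (measurable_pi_lambda _ fun j => by
      simp only [H]; split_ifs <;> fun_prop) (fun _ _ h => if_neg h) fun y y' => by
    ext j
    simp only [H]
    split_ifs with hj
    · have h1 := (hs _ _ hj.1).1
      have h2 : ∀ u, u ≠ j.2.2 → gl D y y' (j.1, j.2.1, u) = y (j.1, j.2.1, u) :=
        fun u hu => gl_out _ _ fun h => hu (h.2.trans hj.2.symm)
      rw [h2 0 (by have := h1.1; have := hj.2; omega), h2 _ (by have := h1.2; have := hj.2; omega),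
        Finset.sum_congr rfl fun u hu => h2 u (Finset.ne_of_mem_erase hu)]
    · rfl
  let F : (J → ZMod 2) → ℤ → ℕ × ℕ → ZMod 2 := fun ω i c =>
    if c.2 = 1 ∧ p c.1 (i - 1) then ω (c.1, i - 1, s c.1 (i - 1)) else X ω i c
  let o : J → ℤ := fun j => if j ∈ D ∨ (¬ p j.1 j.2.1 ∧ j.2.2 ≤ j.1 + 2) then j.2.1 + 1
    else j.2.1 + j.2.2
  have h1 : ∀ ω, ∀ i ∈ A ∪ B, X ω i = F (H ω + ω) i := by
    intro ω i hi
    ext ⟨n, u⟩
    have h2 : ∀ j ∉ D, (H ω + ω) j = ω j := fun j hj => by simp [H, hj]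
    simp only [F, X, gad]
    split_ifs with h3 h4 h5
    · have h6 := hs _ _ h4.2
      have h7 : s n (i - 1) ≠ 1 := fun h => h6.2 (by simpa [h] using hi)
      rw [Pi.add_apply, show H ω _ = _ from if_pos ⟨h4.2, rfl⟩, add_assoc,
        Finset.sum_erase_add _ _ (Finset.mem_Ico.2 ⟨by have := h6.1.1; omega, h6.1.2⟩)]
    · have h6 : ∀ u, (H ω + ω) (n, i - 1, u) = ω (n, i - 1, u) :=
        fun u => h2 _ fun h => h4 ⟨h3, h.1⟩
      simp only [h6]
    · exact (h3 h5.1).elim
    · exact (h2 _ fun h => (hs _ _ h.1).2 (by rw [← h.2]; simpa using hi)).symm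
  have h2 : ∀ A' B' : Set ℤ, A' ∪ B' = A ∪ B → (∀ a ∈ A', ∀ b ∈ B', 1 < |a - b|) →
      Measurable[cylinderEvents {j | o j ∈ A'}] fun ω (a : A') => F ω a := by
    intro A' B' h2 h3
    have h4 : ∀ j, o j ∈ A' → Measurable[cylinderEvents {j | o j ∈ A'}]
      fun ω : J → ZMod 2 => ω j := fun j hj => measurable_cylinderEvent_apply (X := fun _ => ZMod 2) hj
    let := cylinderEvents (X := fun _ : J => ZMod 2) {j | o j ∈ A'}
    refine measurable_pi_lambda _ fun ⟨i, hi⟩ => measurable_pi_lambda _ fun ⟨n, u⟩ => ?_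
    simp only [F, X, gad]
    split_ifs with h5 h6
    · exact h4 _ (by rw [show o _ = _ from if_pos (.inl ⟨h5.2, rfl⟩)]; simpa)
    · have h7 : ∀ u ≤ n + 2, o (n, i - 1, u) ∈ A' := fun u hu => by
        rw [show o _ = _ from if_pos (.inr ⟨fun h => h5 ⟨h6, h⟩, hu⟩)]; simpa
      exact ((h4 _ (h7 _ (by omega))).mul (h4 _ (h7 _ le_rfl))).add
        (Finset.measurable_sum _ fun u hu => h4 _ (h7 _ (Finset.mem_Ico.1 hu).2.le))
    · refine h4 _ ?_
      simp only [o]
      split_ifs with h7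
      · rcases h7 with h7 | h7
        · exact ((hs _ _ h7.1).2 (by rw [← h7.2, ← h2]; simp [hi])).elim
        · refine chain h3 (fun s hs => ?_) h7.2 (by simpa)
          by_contra h8
          exact h7.1 ⟨s, hs, h2 ▸ h8⟩
      · simpa
  have h3 := h2 A B rfl h
  have h4 := h2 B A (union_comm _ _) fun a ha b hb => abs_sub_comm a b ▸ h b hb a ha
  rw [indepFun_iff_measure_inter_preimage_eq_mul]
  intro E E' hE hE'
  have h5 := cylinderEvents_le_pi _ (h3 hE)
  have h6 := cylinderEvents_le_pi _ (h4 hE')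
  have h7 := Pool.Agent.H22.Perc3.ind (fun _ => un 2) (disjoint_left.2 fun j h1 h2 => by
    simpa using h _ h1 _ h2) (h3 hE) (h4 hE')
  rw [← hΦ.measure_preimage (h5.inter h6).nullMeasurableSet,
    ← hΦ.measure_preimage h5.nullMeasurableSet, ← hΦ.measure_preimage h6.nullMeasurableSet] at h7
  have h8 : (fun ω (a : A) => X ω a) = (fun ω (a : A) => F ω a) ∘ fun ω => H ω + ω := by
    ext1 ω; ext1 a; exact h1 ω a (.inl a.2)
  have h9 : (fun ω (a : B) => X ω a) = (fun ω (a : B) => F ω a) ∘ fun ω => H ω + ω := by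
    ext1 ω; ext1 a; exact h1 ω a (.inr a.2)
  rw [h8, h9]
  exact h7

theorem result : ∃ (S : Type) (_ : MeasurableSpace S) (_ : StandardBorelSpace S)
    (μ : Measure (ℤ → S)), IsProbabilityMeasure μ ∧ μ.map (fun x j => x (j + 1)) = μ ∧
    (∀ A B : Set ℤ, (∀ a ∈ A, ∀ b ∈ B, 1 < |a - b|) →
      IndepFun (fun (x : ℤ → S) (a : A) => x a) (fun (x : ℤ → S) (b : B) => x b) μ) ∧
    ∀ (T : Type) [MeasurableSpace T] (p : Measure T) [IsProbabilityMeasure p]
      (φ : (ℤ → T) → ℤ → S), Measurable φ →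
      (∀ (k : ℤ) (y : ℤ → T), φ (fun j => y (j + k)) = fun j => φ y (j + k)) →
      (Measure.infinitePi fun _ : ℤ => p).map φ = μ →
      ∑' r : ℕ, (Measure.infinitePi fun _ : ℤ => p) {y | (r : ℕ∞) < radius φ y} = ⊤ := by
  refine ⟨ℕ × ℕ → ZMod 2, inferInstance, inferInstance, PP.map X,
    Measure.isProbabilityMeasure_map X_meas.aemeasurable, ?_, fun A B h => ?_,
    fun T _ p _ φ hφ hs hl => ?_⟩
  · rw [Measure.map_map (by fun_prop) X_meas]
    have h := reidx (un 2) ((Equiv.refl ℕ).prodCongr ((Equiv.addRight (1 : ℤ)).prodCongr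
      (Equiv.refl ℕ)))
    refine Eq.trans ?_ (congrArg _ h.map_eq)
    rw [Measure.map_map X_meas h.measurable]
    refine congrArg (Measure.map · _) ?_
    ext ω i c
    simp [X, gad, add_sub_right_comm]
  · have := dep A B h
    rw [indepFun_iff_measure_inter_preimage_eq_mul] at this ⊢
    intro E E' hE hE'
    have h1 : Measurable fun (x : ℤ → ℕ × ℕ → ZMod 2) (a : A) => x a := by fun_prop
    have h2 : Measurable fun (x : ℤ → ℕ × ℕ → ZMod 2) (a : B) => x a := by fun_prop
    rw [Measure.map_apply X_meas ((h1 hE).inter (h2 hE')), Measure.map_apply X_meas (h1 hE),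
      Measure.map_apply X_meas (h2 hE')]
    exact this E E' hE hE'
  set P := Measure.infinitePi fun _ : ℤ => p
  have key : ∀ r : ℕ, 1 / 320 * (1 / ((r + 1 : ℕ) : ℝ)) ≤ P.real {y | (r : ℕ∞) < radius φ y} := by
    intro r
    let R := toMeasurable P {y | (r : ℕ∞) < radius φ y}
    have hR : MeasurableSet R := measurableSet_toMeasurable _ _
    let x : ℕ → (ℤ → T) → ZMod 2 := fun s y => φ y s (4 * r, s)
    have hx : ∀ s, Measurable (x s) := fun s => by fun_prop
    let C := {y | ∑ s ∈ Finset.Ico 1 (4 * r + 2), x s y ≠ x 0 y * x (4 * r + 2) y}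
    have hC : MeasurableSet C := (measurableSet_eq_fun (by fun_prop) (by fun_prop)).compl
    let N := C ∪ ⋃ s ∈ Finset.range (4 * r + 3), (fun y j => y (j + (s : ℕ))) ⁻¹' R
    have hσ : ∀ s : ℕ, MeasurePreserving (fun (y : ℤ → T) j => y (j + (s : ℕ))) P P :=
      fun s => reidx p (Equiv.addRight (s : ℤ))
    have hN : MeasurableSet N := hC.union (Finset.measurableSet_biUnion _ fun s _ =>
      (hσ s).measurable hR)
    have h1 : P.real C = 0 := by
      have hm : MeasurableSet {z : ℤ → ℕ × ℕ → ZMod 2 | ∑ s ∈ Finset.Ico 1 (4 * r + 2),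
        z (s : ℕ) (4 * r, s) ≠ z (0 : ℕ) (4 * r, 0) * z (4 * r + 2 : ℕ) (4 * r, 4 * r + 2)} :=
        (measurableSet_eq_fun (by fun_prop) (by fun_prop)).compl
      have := Measure.map_apply (μ := P) hφ hm
      rw [hl, Measure.map_apply X_meas hm,
        eq_empty_of_forall_notMem (s := X ⁻¹' _) fun ω h => absurd ?_ (mem_preimage.1 h).out,
        measure_empty] at this
      · exact congrArg ENNReal.toReal this.symm
      rw [Finset.sum_eq_sum_Ico_succ_bot (by omega), Finset.sum_congr rfl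
        (g := fun u => ω (4 * r, 0, u)) fun u hu => by
          simp [X, show u ≠ 1 by have := (Finset.mem_Ico.1 hu).1; omega]]
      simp [X, gad, add_assoc, CharTwo.add_self_eq_zero]
    have h2 : P.real N ≤ (4 * r + 3) * P.real {y | (r : ℕ∞) < radius φ y} := by
      refine (measureReal_union_le _ _).trans ?_
      rw [h1, zero_add]
      refine (measureReal_biUnion_finset_le _ _).trans_eq ?_
      rw [Finset.sum_congr rfl fun s _ => (hσ s).measureReal_preimage hR.nullMeasurableSet]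
      simp [R, Measure.real, P]
    have h3 : ∀ a : ZMod 2, P {y | x 0 y = a ∧ x (4 * r + 2) y = a} = 2⁻¹ * 2⁻¹ := by
      intro a
      have hm : MeasurableSet {z : ℤ → ℕ × ℕ → ZMod 2 | z (0 : ℕ) (4 * r, 0) = a ∧
        z (4 * r + 2 : ℕ) (4 * r, 4 * r + 2) = a} := (measurableSet_eq_fun (by fun_prop)
          measurable_const).inter (measurableSet_eq_fun (by fun_prop) measurable_const)
      have h4 := Measure.map_apply (μ := P) hφ hm
      have h5 := Measure.infinitePi_pi (fun _ : J => un 2) (s := {(4 * r, 0, 0), (4 * r, 0, 4 * r + 2)})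
        (t := fun _ => {a}) fun _ _ => measurableSet_singleton _
      rw [Finset.prod_pair (by simp), un_single] at h5
      rw [hl, Measure.map_apply X_meas hm] at h4
      refine h4.symm.trans (Eq.trans ?_ h5)
      congr 1
      ext ω
      simp [X]
    have h4 : ∀ y ∉ N, ∀ y' : ℤ → T, ∀ s ≤ 4 * r + 2, (∀ i : ℤ, |i - s| ≤ r → y' i = y i) →
        x s y' = x s y := by
      intro y hy y' s h4 h5
      have h6 : ¬ (r : ℕ∞) < _ := fun h => hy (.inr (mem_biUnion (Finset.mem_coe.2
        (Finset.mem_range.2 (Nat.lt_succ_of_le h4))) (subset_toMeasurable P _ h)))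
      have h7 := (not_lt.1 h6).trans_lt (ENat.natCast_lt_natCast.2 (Nat.lt_succ_self r))
      simp only [radius, iInf_lt_iff, ENat.natCast_lt_natCast] at h7
      obtain ⟨k, h7, hk⟩ := h7
      have h8 := h7 (fun j => y' (j + s)) fun i hi => h5 _ (by rw [add_sub_cancel_right]; omega)
      simp only [hs, zero_add] at h8
      exact congrFun h8 _
    let U : Set ℤ := Iic r
    let W : Set ℤ := Ioi (3 * r + 1)
    have h5 : (P.prod P).real ({y | x 0 y = 0 ∧ x (4 * r + 2) y = 0} ×ˢ
        {y | x 0 y = 1 ∧ x (4 * r + 2) y = 1}) ≤ P.real N + (P.real N + (P.real N +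
          (P.real N + P.real N))) := by
      have g := fun D => (glue (fun _ : ℤ => p) D).measureReal_preimage hN.nullMeasurableSet
      refine le_trans (measureReal_mono ?_) ((measureReal_union_le _ _).trans (add_le_add
        (g ∅).le ((measureReal_union_le _ _).trans (add_le_add (g univ).le
          ((measureReal_union_le _ _).trans (add_le_add (g U).le ((measureReal_union_le _ _).trans
            (add_le_add (g W).le (g (U ∪ W)).le))))))))
      rintro ⟨y, y'⟩ ⟨⟨a0, b0⟩, a1, b1⟩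
      by_contra h5
      simp only [mem_union, mem_preimage, not_or, gl_empty, gl_univ, N] at h5
      obtain ⟨n0, n1, nU, nW, nB⟩ := h5
      have e : ∀ y, ¬ y ∈ C → ∑ s ∈ Finset.Ico 1 (2 * r + 1), x s y +
          ∑ s ∈ Finset.Ico (2 * r + 1) (4 * r + 2), x s y = x 0 y * x (4 * r + 2) y := fun y h => by
        rw [Finset.sum_Ico_consecutive _ (by omega) (by omega)]; exact not_not.1 h
      have e0 := e _ n0.1
      have eU := e _ nU.1
      have eW := e _ nW.1
      have eB := e _ nB.1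
      have k : ∀ (D D' : Set ℤ) (s : ℕ), s ≤ 4 * r + 2 → gl D y y' ∉ N →
          (∀ i : ℤ, |i - s| ≤ r → (i ∈ D' ↔ i ∈ D)) →
          x s (gl D' y y') = x s (gl D y y') := fun D D' s h1 h2 h3 =>
        h4 _ h2 _ s h1 fun i hi => gl_congr _ _ (h3 i hi)
      have m0 : gl ∅ y y' ∉ N := by rw [gl_empty]; exact not_or.2 n0
      have m1 : gl univ y y' ∉ N := by rw [gl_univ]; exact not_or.2 n1
      have mU : gl U y y' ∉ N := not_or.2 nU
      have mW : gl W y y' ∉ N := not_or.2 nW
      have k0 := fun D s h1 h3 => (k ∅ D s h1 m0 h3).trans (congrArg _ (gl_empty _ _))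
      have k1 := fun D s h1 h3 => (k univ D s h1 m1 h3).trans (congrArg _ (gl_univ _ _))
      simp only [U, W, abs_le] at *
      rw [Finset.sum_congr rfl (s₂ := Finset.Ico (2 * r + 1) _) fun s hs => k0 _ s (by grind) (by grind),
        k0 _ (4 * r + 2) le_rfl (by grind), b0, mul_zero] at eU
      rw [Finset.sum_congr rfl (s₂ := Finset.Ico 1 _) fun s hs => k0 _ s (by grind) (by grind),
        k0 _ 0 (by omega) (by grind), a0, zero_mul] at eW
      rw [Finset.sum_congr rfl (s₂ := Finset.Ico 1 _) fun s hs => k _ _ s (by grind) mU (by grind),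
        Finset.sum_congr rfl (s₂ := Finset.Ico (2 * r + 1) _) fun s hs => k _ _ s (by grind) mW (by grind),
        k1 _ 0 (by omega) (by grind), k1 _ (4 * r + 2) le_rfl (by grind), a1, b1] at eB
      rw [a0, zero_mul] at e0
      exact zero_ne_one (α := ZMod 2) (by linear_combination eB + e0 - eU - eW)
    rw [Measure.real, Measure.prod_prod, h3, h3] at h5
    norm_num at h5
    have := measureReal_nonneg (μ := P) (s := {y | (r : ℕ∞) < radius φ y})
    rw [mul_one_div, div_le_iff₀ (by positivity)]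
    push_cast
    nlinarith
  by_contra hT
  exact Real.not_summable_one_div_natCast ((summable_nat_add_iff 1).1 ((summable_mul_left_iff
    (by norm_num)).1 (.of_nonneg_of_le (fun _ => by positivity) key (ENNReal.summable_toReal hT))))

end
end Pool.Agent.Results.MP_ba6fcf_pr.Exists
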